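import Pool.Agent.MP_cfb5a8_lc.Upper

/-!
# Book thickness of graphs of bounded treewidth is computable in polynomial time iff P = NP

The hardness already holds for pathwidth at most 15 (and 13 pages).
-/

namespace Pool.Agent.Results.MP_cfb5a8_lc.IffPeqNP

open Pool.Agent.MP_cfb5a8_lc

theorem mono {C C' : ∀ n : ℕ, SimpleGraph (Fin n) → Prop} (h : PolyTimeOn C)
    (hC : ∀ n G, C' n G → C n G) : PolyTimeOn C' := by
  obtain ⟨T⟩ := h
  exact ⟨⟨T.toTM2ComputableAux, T.time, fun G => T.outputsFun ⟨G.1, hC _ _ G.2⟩⟩⟩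

theorem result : List.TFAE
    [∀ k : ℕ, PolyTimeOn (fun _ G => TreewidthLE G k),
      PolyTimeOn (fun _ G => TreewidthLE G 15),
      PolyTimeOn (fun _ G => PathwidthLE G 15),
      N68a2faeb.P = N68a2faeb.NP] := by
  tfae_have 1 → 2 := fun h => h 15
  tfae_have 2 → 3 := fun h => mono h (fun _ _ h => h.treewidthLE)
  tfae_have 3 → 4 := P_eq_NP_of_polyTimeOn
  tfae_have 4 → 1 := fun h _ => polyTimeOn_of_P_eq_NP h _
  tfae_finish

end Pool.Agent.Results.MP_cfb5a8_lc.IffPeqNP
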